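import Pool.Agent.Q170.TriPend

/-!
# MP_c0afcf_an, Q1: the hot spot set of a quantum graph can be infinite and proper
-/

open Set Pool.Agent.Q170.QGraph

namespace Pool.Agent.Results.MP_c0afcf_an.TrianglePendants

/-- **MP_c0afcf_an, Q1** (negated form): for an equilateral triangle with suitable equal pendant
edges at its three vertices, `M` is infinite and is not the whole graph. -/
theorem result : ∃ G : MGraph, (hotSet G).Infinite ∧ hotSet G ≠ univ := by
  refine ⟨Pool.Agent.Q170.TriPend.T, Pool.Agent.Q170.TriPend.hot_infinite, fun h => ?_⟩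
  have h1 := Pool.Agent.Q170.TriPend.not_hot
  rw [h] at h1
  exact h1 (mem_univ _)

end Pool.Agent.Results.MP_c0afcf_an.TrianglePendants
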